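import Pool.Agent.PRT.StmtsA
import Pool.Agent.PRT.Kit

/-!
# Squad PRT (MP_b2962a_an): the row LBD, bounds for the lines (helper7)
-/

set_option autoImplicit false

namespace Pool.Agent.PRT.H7

open Set MeasureTheory Filter
open scoped ContDiff

theorem line_int {G : E ≃ₜ E} {w : E} {C : ℝ} {L : ℝ → E} {i : ℕ} (h : Ln G w C L i) (m : ℤ) :
    ∀ t : ℝ, L (t + m) = (G ^ ((i : ℤ) * m)) (L t) := by
  induction m using Int.induction_on with
  | zero =>
    intro t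
    simp
  | succ m ih =>
    intro t
    have e1 : t + (((m : ℤ) + 1 : ℤ) : ℝ) = (t + ((m : ℤ) : ℝ)) + 1 := by push_cast; ring
    have e2 : (i : ℤ) * ((m : ℤ) + 1) = (i : ℤ) + (i : ℤ) * (m : ℤ) := by ring
    rw [e1, h.step, ih, e2, zpow_add, zpow_natCast]
    rfl
  | pred m ih =>
    intro t
    have e1 : t + ((-(m : ℤ) : ℤ) : ℝ) = (t + ((-(m : ℤ) - 1 : ℤ) : ℝ)) + 1 := by
      push_cast; ring
    have h1 := ih t
    rw [e1, h.step] at h1
    have e2 : (i : ℤ) * (-(m : ℤ) - 1) = -(i : ℤ) + (i : ℤ) * (-(m : ℤ)) := by ring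
    rw [e2, zpow_add, zpow_neg, zpow_natCast]
    show _ = (G ^ i)⁻¹ ((G ^ ((i : ℤ) * (-(m : ℤ)))) (L t))
    rw [← h1]
    show _ = ((G ^ i)⁻¹ * (G ^ i)) (L (t + ((-(m : ℤ) - 1 : ℤ) : ℝ)))
    rw [inv_mul_cancel]
    rfl

/-- the main estimate -/
theorem line_est {G : E ≃ₜ E} {w : E} {C : ℝ} {L : ℝ → E} {i : ℕ} (h : Ln G w C L i) :
    ∃ B : ℝ, 0 ≤ B ∧ ∀ (n : ℤ) (t : ℝ), ∃ u : E, ‖u‖ ≤ B ∧
      (G ^ n) (L t) = ((n + i * ⌊t⌋ : ℤ) : ℝ) • w + u := by
  obtain ⟨B, hB⟩ := (isCompact_Icc (a := (0 : ℝ)) (b := 1)).exists_bound_of_continuousOn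
    h.cont.continuousOn
  have hB0 : 0 ≤ B := (norm_nonneg _).trans (hB 0 (by simp))
  have hC0 : 0 ≤ C := (norm_nonneg _).trans (h.hm.dev 0 0)
  refine ⟨B + C, by linarith, fun n t => ?_⟩
  have h1 : L t = (G ^ ((i : ℤ) * ⌊t⌋)) (L (Int.fract t)) := by
    rw [← line_int h, Int.fract_add_floor]
  have h2 : (G ^ n) (L t) = (G ^ (n + i * ⌊t⌋ : ℤ)) (L (Int.fract t)) := by
    rw [h1, zpow_add]
    rfl
  have h3 := h.hm.dev (n + i * ⌊t⌋) (L (Int.fract t))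
  have h4 : ‖L (Int.fract t)‖ ≤ B := hB _ ⟨Int.fract_nonneg t, (Int.fract_lt_one t).le⟩
  refine ⟨L (Int.fract t) + ((G ^ (n + i * ⌊t⌋ : ℤ)) (L (Int.fract t)) - L (Int.fract t) -
    ((n + i * ⌊t⌋ : ℤ) : ℝ) • w), (norm_add_le _ _).trans (add_le_add h4 h3), ?_⟩
  rw [h2]
  abel

theorem ip_add_right' (a b c : E) : ip a (b + c) = ip a b + ip a c := by
  unfold ip; simp; ring

theorem ip_smul_right' (t : ℝ) (a b : E) : ip a (t • b) = t * ip a b := by
  unfold ip; simp; ring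

theorem ip_self_pos {w : E} (hw : w ≠ 0) : 0 < ip w w := by
  unfold ip
  by_contra hcon
  push Not at hcon
  apply hw
  have h1 : w.1 = 0 := by nlinarith [mul_self_nonneg w.1, mul_self_nonneg w.2]
  have h2 : w.2 = 0 := by nlinarith [mul_self_nonneg w.1, mul_self_nonneg w.2]
  exact Prod.ext h1 h2

theorem lbd : LbdStmt := by
  intro G w C L i h
  obtain ⟨B, hB0, hB⟩ := line_est h
  have hw := h.hm.w0
  have hwn : 0 < ‖w‖ := norm_pos_iff.2 hw
  refine ⟨fun m t => line_int h m t, ⟨2 * ‖w‖ * B + 1, fun n t => ?_⟩, fun n A => ?_,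
    fun n => ?_⟩
  · obtain ⟨u, hu, e⟩ := hB n t
    rw [e, cr_add_right, cr_smul_right, cr_self, mul_zero, zero_add]
    have h1 := abs_cr_le w u
    have h2 : 2 * ‖w‖ * ‖u‖ ≤ 2 * ‖w‖ * B := by gcongr
    linarith
  · have hq := ip_self_pos hw
    set q := ip w w with hqdef
    obtain ⟨M, hM⟩ := exists_nat_gt ((|A| + |(n : ℝ)| * q + 2 * ‖w‖ * B) / q)
    rw [div_lt_iff₀ hq] at hM
    have hi : (2 : ℝ) ≤ i := by exact_mod_cast h.i2
    have hM0 : (0 : ℝ) ≤ (M : ℝ) := Nat.cast_nonneg M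
    have key : ∀ (t : ℝ) (u : E), ‖u‖ ≤ B → |ip w u| ≤ 2 * ‖w‖ * B := by
      intro t u hu
      have h1 := abs_ip_le w u
      have h2 : 2 * ‖w‖ * ‖u‖ ≤ 2 * ‖w‖ * B := by gcongr
      linarith
    have hnq1 : -(|(n : ℝ)| * q) ≤ (n : ℝ) * q := by
      have := neg_abs_le (n : ℝ)
      nlinarith
    have hnq2 : (n : ℝ) * q ≤ |(n : ℝ)| * q := by
      have := le_abs_self (n : ℝ)
      nlinarith
    have hA1 := le_abs_self A
    have hA2 := neg_abs_le A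
    have hiM : (M : ℝ) * q + q ≤ (i : ℝ) * ((M : ℝ) + 1) * q := by
      have : (M : ℝ) + 1 ≤ (i : ℝ) * ((M : ℝ) + 1) := by nlinarith
      nlinarith
    refine ⟨(M : ℝ) + 1, by positivity, ?_, ?_⟩
    · obtain ⟨u, hu, e⟩ := hB n (-((M : ℝ) + 1))
      have hf : ⌊-((M : ℝ) + 1)⌋ = -((M : ℤ) + 1) := by
        have : (-((M : ℝ) + 1)) = ((-((M : ℤ) + 1) : ℤ) : ℝ) := by push_cast; ring
        rw [this, Int.floor_intCast]
      rw [e, ip_add_right', ip_smul_right', hf, ← hqdef]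
      have h1 := (abs_le.1 (key 0 u hu)).2
      push_cast
      nlinarith
    · obtain ⟨u, hu, e⟩ := hB n ((M : ℝ) + 1)
      have hf : ⌊((M : ℝ) + 1)⌋ = ((M : ℤ) + 1) := by
        have : ((M : ℝ) + 1) = (((M : ℤ) + 1 : ℤ) : ℝ) := by push_cast; ring
        rw [this, Int.floor_intCast]
      rw [e, ip_add_right', ip_smul_right', hf, ← hqdef]
      have h1 := (abs_le.1 (key 0 u hu)).1
      push_cast
      nlinarith
  · have hcont : Continuous fun t => (G ^ n) (L t) := (G ^ n).continuous.comp h.cont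
    have htend : Tendsto (fun t => (G ^ n) (L t)) (cocompact ℝ) (cocompact E) := by
      rw [← Metric.cobounded_eq_cocompact (α := E), ← tendsto_norm_atTop_iff_cobounded]
      have h1 : Tendsto (fun t : ℝ => (‖t‖ - 1 - |(n : ℝ)|) * ‖w‖ - B) (cocompact ℝ) atTop := by
        have h2 := tendsto_norm_cocompact_atTop (E := ℝ)
        have h3 : Tendsto (fun t : ℝ => ‖t‖ + (-1 - |(n : ℝ)|)) (cocompact ℝ) atTop :=
          tendsto_atTop_add_const_right _ _ h2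
        have h4 := h3.atTop_mul_const hwn
        have h5 := tendsto_atTop_add_const_right _ (-B) h4
        refine h5.congr fun t => ?_
        ring
      refine tendsto_atTop_mono (fun t => ?_) h1
      obtain ⟨u, hu, e⟩ := hB n t
      rw [e]
      have h2 : ‖((n + i * ⌊t⌋ : ℤ) : ℝ) • w‖ - ‖u‖ ≤ ‖((n + i * ⌊t⌋ : ℤ) : ℝ) • w + u‖ := by
        have := norm_sub_le (((n + i * ⌊t⌋ : ℤ) : ℝ) • w + u) u
        rw [add_sub_cancel_right] at this
        linarith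
      rw [norm_smul, Real.norm_eq_abs] at h2
      have h3 : ‖t‖ - 1 - |(n : ℝ)| ≤ |((n + i * ⌊t⌋ : ℤ) : ℝ)| := by
        push_cast
        have a1 : |t| ≤ |(⌊t⌋ : ℝ)| + 1 := by
          have b1 := Int.fract_nonneg t
          have b2 := (Int.fract_lt_one t).le
          have b3 : t = (⌊t⌋ : ℝ) + Int.fract t := (Int.floor_add_fract t).symm
          calc |t| = |(⌊t⌋ : ℝ) + Int.fract t| := by rw [← b3]
            _ ≤ |(⌊t⌋ : ℝ)| + |Int.fract t| := abs_add_le _ _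
            _ ≤ |(⌊t⌋ : ℝ)| + 1 := by rw [abs_of_nonneg b1]; linarith
        have a2 : |(⌊t⌋ : ℝ)| ≤ |(i : ℝ) * (⌊t⌋ : ℝ)| := by
          rw [abs_mul]
          have hi : (1 : ℝ) ≤ |(i : ℝ)| := by
            rw [abs_of_nonneg (Nat.cast_nonneg i)]
            have := h.i2
            exact_mod_cast (by omega : 1 ≤ i)
          nlinarith [abs_nonneg (⌊t⌋ : ℝ)]
        have a3 : |(i : ℝ) * (⌊t⌋ : ℝ)| ≤ |(n : ℝ) + (i : ℝ) * (⌊t⌋ : ℝ)| + |(n : ℝ)| := by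
          have := abs_sub ((n : ℝ) + (i : ℝ) * (⌊t⌋ : ℝ)) (n : ℝ)
          rw [add_sub_cancel_left] at this
          exact this
        rw [Real.norm_eq_abs]
        linarith
      have h4 : (‖t‖ - 1 - |(n : ℝ)|) * ‖w‖ ≤ |((n + i * ⌊t⌋ : ℤ) : ℝ)| * ‖w‖ :=
        mul_le_mul_of_nonneg_right h3 hwn.le
      linarith
    exact (isProperMap_iff_tendsto_cocompact.2 ⟨hcont, htend⟩).isClosedMap.isClosed_range

end Pool.Agent.PRT.H7
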