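import Pool.Agent.PRT.StmtsC

/-!
# Squad PRT (MP_b2962a_an): the row PBD, periodic functions (helper7)
-/

set_option autoImplicit false

namespace Pool.Agent.PRT.H7

open Set MeasureTheory
open scoped ContDiff

theorem per_bound {V : Type} [NormedAddCommGroup V] [NormedSpace ℝ V] (ψ : E → V)
    (hs : ContDiff ℝ ∞ ψ) (hp : Per ψ) (i : ℕ) : ∃ B : ℝ, ∀ z, ‖iteratedFDeriv ℝ i ψ z‖ ≤ B := by
  have hcont : Continuous (iteratedFDeriv ℝ i ψ) :=
    hs.continuous_iteratedFDeriv (by exact_mod_cast le_top)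
  have hQ : IsCompact Q := isCompact_Icc.prod isCompact_Icc
  obtain ⟨B, hB⟩ := hQ.exists_bound_of_continuousOn hcont.continuousOn
  refine ⟨B, fun z => ?_⟩
  have hz : z = (Int.fract z.1, Int.fract z.2) + iv ⌊z.1⌋ ⌊z.2⌋ := by
    unfold iv
    ext
    · simp [Int.fract_add_floor]
    · simp [Int.fract_add_floor]
  have hper : (fun y => ψ (y + iv ⌊z.1⌋ ⌊z.2⌋)) = ψ := by
    funext y
    exact hp _ _ y
  have h1 := iteratedFDeriv_comp_add_right (𝕜 := ℝ) (f := ψ) i (iv ⌊z.1⌋ ⌊z.2⌋)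
    (Int.fract z.1, Int.fract z.2)
  rw [hper, ← hz] at h1
  rw [← h1]
  refine hB _ ⟨⟨Int.fract_nonneg _, (Int.fract_lt_one _).le⟩,
    ⟨Int.fract_nonneg _, (Int.fract_lt_one _).le⟩⟩

theorem pbd : PbdStmt := by
  have h1 : ∀ (V : Type) [NormedAddCommGroup V] [NormedSpace ℝ V] (ψ : E → V), ContDiff ℝ ∞ ψ →
      Per ψ → ∀ k, ∃ B : ℝ, Bd k B ψ := by
    intro V _ _ ψ hs hp k
    choose B hB using per_bound ψ hs hp
    refine ⟨∑ i ∈ Finset.range (k + 1), |B i|, fun i hi z => ?_⟩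
    have h2 : |B i| ≤ ∑ i ∈ Finset.range (k + 1), |B i| :=
      Finset.single_le_sum (f := fun i => |B i|) (fun j _ => abs_nonneg _)
        (Finset.mem_range.2 (by omega))
    exact (hB i z).trans ((le_abs_self _).trans h2)
  refine ⟨h1, fun F hF he k => ?_⟩
  have hs : ContDiff ℝ ∞ (fun z => F z - z) := hF.sub contDiff_id
  have hp : Per (fun z => F z - z) := by
    intro a b z
    show F (z + iv a b) - (z + iv a b) = F z - z
    rw [he a b z]
    abel
  obtain ⟨B, hB⟩ := h1 E _ hs hp k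
  refine ⟨B + 1, ?_⟩
  have h2 := hB.bm.add (bm_id k) hs contDiff_id
  have e : (fun z : E => F z - z + z) = F := by
    funext z
    abel
  rwa [e] at h2

end Pool.Agent.PRT.H7
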