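import Pool.Agent.PRT.StmtsB

/-!
# Squad PRT (MP_b2962a_an): the row RCP, reciprocals (helper7)
-/

set_option autoImplicit false

namespace Pool.Agent.PRT.H7

open Set MeasureTheory
open scoped ContDiff

theorem rcp_aux (k : ℕ) : ∃ c : ℕ, ∀ (ψ : E → ℝ) (C : ℝ), ContDiff ℝ ∞ ψ → 1 ≤ C →
    (∀ z, 1 / 2 ≤ ψ z) → Bd k C ψ → Bd k (c * C ^ c) (fun z => (ψ z)⁻¹) := by
  have hn : ∀ (ψ : E → ℝ), (∀ z, 1 / 2 ≤ ψ z) → ∀ z, ‖(ψ z)⁻¹‖ ≤ 2 := by
    intro ψ h z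
    have h1 := h z
    have h2 : 0 < ψ z := by linarith
    rw [Real.norm_eq_abs, abs_of_pos (inv_pos.2 h2)]
    rw [inv_le_comm₀ h2 (by norm_num)]
    linarith
  induction k with
  | zero =>
    refine ⟨2, fun ψ C _ hC hlb _ => ?_⟩
    intro i hi z
    have hi0 : i = 0 := by omega
    subst hi0
    rw [norm_iteratedFDeriv_zero]
    have h2 : (1 : ℝ) ≤ C ^ 2 := one_le_pow₀ hC
    push_cast
    linarith [hn ψ hlb z]
  | succ k ih =>
    obtain ⟨c, hc⟩ := ih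
    refine ⟨2 ^ k * 2 ^ k * c * c + (2 * c + 1) + 2, fun ψ C hs hC hlb hb => ?_⟩
    set c' : ℕ := 2 ^ k * 2 ^ k * c * c + (2 * c + 1) + 2 with hc'
    have hne : ∀ z, ψ z ≠ 0 := fun z => by
      have := hlb z
      intro h
      linarith
    have hC0 : (0 : ℝ) ≤ C := by linarith
    have hCp : (1 : ℝ) ≤ C ^ c' := one_le_pow₀ hC
    rw [bd_succ]
    constructor
    · intro z
      refine (hn ψ hlb z).trans ?_
      have h1 : (2 : ℝ) ≤ (c' : ℝ) := by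
        have : 2 ≤ c' := by omega
        exact_mod_cast this
      nlinarith
    · have e : fderiv ℝ (fun z => (ψ z)⁻¹) = fun z => -(((ψ z)⁻¹ * (ψ z)⁻¹) • fderiv ℝ ψ z) := by
        funext z
        have hd : DifferentiableAt ℝ ψ z := (hs.differentiable (by simp)).differentiableAt
        have h1 : HasFDerivAt (fun z => (ψ z)⁻¹) (-((ψ z ^ 2)⁻¹) • fderiv ℝ ψ z) z :=
          (hasDerivAt_inv (hne z)).comp_hasFDerivAt z hd.hasFDerivAt
        rw [h1.fderiv]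
        have h2 : (ψ z ^ 2)⁻¹ = (ψ z)⁻¹ * (ψ z)⁻¹ := by rw [pow_two, mul_inv]
        refine ContinuousLinearMap.ext fun v => ?_
        show (-((ψ z ^ 2)⁻¹)) * (fderiv ℝ ψ z v) = -(((ψ z)⁻¹ * (ψ z)⁻¹) * (fderiv ℝ ψ z v))
        rw [h2]
        ring
      rw [e]
      have s0 : ContDiff ℝ ∞ (fun z => (ψ z)⁻¹) := hs.inv hne
      have b0 := hc ψ C hs hC hlb (hb.mono (Nat.le_succ _) le_rfl)
      have b1 := Bd.bil (ContinuousLinearMap.mul ℝ ℝ) (ContinuousLinearMap.opNorm_mul_le ℝ ℝ)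
        b0 b0 s0 s0
      have s1 : ContDiff ℝ ∞ (fun z => ContinuousLinearMap.mul ℝ ℝ (ψ z)⁻¹ (ψ z)⁻¹) :=
        s0.mul s0
      have s2 : ContDiff ℝ ∞ (fderiv ℝ ψ) := hs.fderiv_right (by simp)
      have b2 : Bd k C (fderiv ℝ ψ) := (bd_succ.1 hb).2
      have b3 := (Bd.bil (ContinuousLinearMap.lsmul ℝ ℝ : ℝ →L[ℝ] (E →L[ℝ] ℝ) →L[ℝ] (E →L[ℝ] ℝ))
        ContinuousLinearMap.opNorm_lsmul_le b1 b2 s1 s2).neg
      refine Bd.mono b3 le_rfl ?_
      have h1 : (2 : ℝ) ^ k * (2 ^ k * (c * C ^ c) * (c * C ^ c)) * C =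
          (((2 ^ k * 2 ^ k * c * c : ℕ) : ℝ)) * C ^ (2 * c + 1) := by
        push_cast
        ring
      rw [h1]
      have h2 : ((2 ^ k * 2 ^ k * c * c : ℕ) : ℝ) ≤ (c' : ℝ) := by
        have : 2 ^ k * 2 ^ k * c * c ≤ c' := by omega
        exact_mod_cast this
      have h3 : C ^ (2 * c + 1) ≤ C ^ c' := pow_le_pow_right₀ hC (by omega)
      exact mul_le_mul h2 h3 (by positivity) (by positivity)

theorem rcp : RcpStmt := by
  intro k
  obtain ⟨c, hc⟩ := rcp_aux k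
  refine ⟨c, fun ψ C hs hC hlb hb => ⟨hs.inv fun z => ?_, hc ψ C hs hC hlb hb⟩⟩
  have := hlb z
  intro h
  linarith

end Pool.Agent.PRT.H7
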