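import Pool.Agent.PRT.StmtsD

/-!
# Squad PRT (MP_b2962a_an): the row RES (helper7)
-/

set_option autoImplicit false

namespace Pool.Agent.PRT.H7

open Set MeasureTheory
open scoped ContDiff

theorem res (dev : DevStmt) (slv : SlvStmt) (plg : PlgStmt) (fin : FinStmt) : ResStmt := by
  intro F H w hF hinv heqv hdet hH hHe hsemi hirr
  obtain ⟨C, hC⟩ := dev F H w hH hHe hsemi
  have lf : Lf F w C := ⟨hF, hinv, heqv, hdet, hC⟩
  refine ⟨fun h => fin F w C lf h, fun h => fin F w C lf (slv F w hF heqv hirr h), ?_⟩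
  rintro hq ⟨A, s, hA⟩
  refine fin F w C lf (plg F w (max A 1) s (le_max_right _ _) (fun m z => ?_) (fun n => ?_))
  · refine (hA m z).trans ?_
    have h1 : (0 : ℝ) ≤ ((m : ℝ) + 1) ^ s := by positivity
    exact mul_le_mul_of_nonneg_right (le_max_left _ _) h1
  · obtain ⟨q, a, b, h2, h3⟩ := hq n
    refine ⟨q, a, b, h2, ?_, h3⟩
    rw [norm_pos_iff, sub_ne_zero]
    exact hirr q a b (by omega)

end Pool.Agent.PRT.H7
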